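import Pool.Agent.Lib.MP_ce3dc4_an.Main

open MeasureTheory Filter Topology Set
open Pool.Agent.Lib.MP_ce3dc4_an

namespace Pool.Agent.Results.MP_ce3dc4_an.ThresholdPositive

/-- For `N ≥ 4` and every bounded open nonempty `Θ` whose closure lies in the open half space,
with `α`, `β` the infimum and supremum of the first coordinate on `Θ`, the number
`c = 1/(β^2 - α^2)` is positive and there is no invariant ground state for `0 ≤ λ < c`. -/
theorem result (N : ℕ) (hN : 4 ≤ N) (Θ : Set (ℝ × Zs N)) (ho : IsOpen Θ) (hne : Θ.Nonempty)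
    (hb : Bornology.IsBounded Θ) (hc : closure Θ ⊆ {x | 0 < x.1}) :
    0 < 1 / (sSup (Prod.fst '' Θ) ^ 2 - sInf (Prod.fst '' Θ) ^ 2) ∧
    ∀ l : ℝ, 0 ≤ l → l < 1 / (sSup (Prod.fst '' Θ) ^ 2 - sInf (Prod.fst '' Θ) ^ 2) →
      ¬ ∃ u, St.IsGroundState Θ l u := by
  set α := sInf (Prod.fst '' Θ) with hα
  set β := sSup (Prod.fst '' Θ) with hβ
  have hS : Bornology.IsBounded (Prod.fst '' Θ) := hb.image_fst
  have hSn : (Prod.fst '' Θ).Nonempty := hne.image _
  have hΘ : ∀ x ∈ Θ, α ≤ x.1 ∧ x.1 ≤ β := fun x hx =>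
    ⟨csInf_le hS.bddBelow ⟨x, hx, rfl⟩, le_csSup hS.bddAbove ⟨x, hx, rfl⟩⟩
  have hα0 : 0 < α := by
    obtain ⟨x0, hx0, hmin⟩ := hb.isCompact_closure.exists_isMinOn hne.closure
      continuous_fst.continuousOn
    refine lt_of_lt_of_le (hc hx0) (le_csInf hSn ?_)
    rintro _ ⟨x, hx, rfl⟩
    exact hmin (subset_closure hx)
  have hαβ : α < β := by
    obtain ⟨x, hx⟩ := hne
    obtain ⟨η, hη, hball⟩ := Metric.isOpen_iff.1 ho x hx
    have : (x.1 + η / 2, x.2) ∈ Θ := by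
      apply hball
      rw [Metric.mem_ball, Prod.dist_eq]
      simp [abs_of_pos hη, hη]
    have h1 := (hΘ _ this).2
    have h2 := (hΘ _ hx).1
    simp only at h1
    linarith
  have hd : 0 < β ^ 2 - α ^ 2 := by nlinarith
  refine ⟨by positivity, fun l hl0 hl ⟨u, hu⟩ => ?_⟩
  have H : Hyp Θ α β (1 / (β ^ 2 - α ^ 2)) :=
    { hN := hN
      hα := hα0
      hc := by positivity
      hcb := by rw [one_div_mul_cancel hd.ne']
      ho := ho
      hΘ := hΘ
      happ := fun δ hδ => by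
        obtain ⟨_, ⟨ξ, hξ, rfl⟩, h⟩ := exists_lt_of_csInf_lt hSn (lt_add_of_pos_right α hδ)
        exact ⟨ξ, hξ, h⟩ }
  exact H.no_ground_state hl0 hl u ((isGroundState_iff Θ l u).1 hu)

end Pool.Agent.Results.MP_ce3dc4_an.ThresholdPositive
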